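import Pool.Agent.Lib.MP_688fd0_co.SQ2.Iface

/-!
Row DSTR of board `sq2_modules`: the quotient by `C₁ = C ⊓ Ecl a`.

Let `M` be the image of `N` in `Q = G / C₁` and `K` a complement of `M`. The image of `a` centralises `M`, because
`[a, n]` lies in `C` and in `Ecl a`. So `a = z δ` with `z ∈ M` and `δ ∈ D = C_K(M)`, and `D` is normal. The commutator
`[z, x]` lies in the image of `C`; it lies in the image of `Ecl a` too, because `[a, x] = [z, x] d` with `d ∈ D`, and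
the orders of `M` and `D` are coprime. So `z` is central.
-/

set_option autoImplicit false

namespace Pool.Agent.Lib.MP_688fd0_co.SQ2.H9

/-- If `[z, x]` has order prime to `k` and `[z, x] d` lies in `E` for an element `d` of order dividing `k` that
commutes with it, then `[z, x]` lies in `E`. -/
theorem mem_of_mul {Q : Type*} [Group Q] {E : Subgroup Q} {c d : Q} {k m : ℕ} (hcd : c * d = d * c)
    (h : c * d ∈ E) (hd : d ^ k = 1) (hc : c ^ m = 1) (hmk : m.Coprime k) : c ∈ E := by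
  have h1 : c ^ k ∈ E := by
    have h2 : (c * d) ^ k = c ^ k := by
      rw [(show Commute c d from hcd).mul_pow, hd, mul_one]
    rw [← h2]
    exact E.pow_mem h k
  have h3 : (orderOf c).Coprime k := hmk.coprime_dvd_left (orderOf_dvd_of_pow_eq_one hc)
  obtain ⟨t, ht⟩ := exists_pow_eq_self_of_coprime h3.symm
  rw [← ht]
  exact E.pow_mem h1 t

theorem dstr : DstrS := by
  intro G _ _ N C k P h a C₁ hC₁n hC₁
  have := h.Nn
  have := h.Cn
  have := h.Nc
  have hC₁C : C₁ ≤ C := hC₁ ▸ inf_le_left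
  have hC₁E : C₁ ≤ Ecl a := hC₁ ▸ inf_le_right
  have hNcomm : ∀ x ∈ N, ∀ y ∈ N, x * y = y * x := by
    intro x hx y hy
    have := (IsCyclic.commGroup (α := N)).mul_comm ⟨x, hx⟩ ⟨y, hy⟩
    exact congrArg Subtype.val this
  set π := QuotientGroup.mk' C₁ with hπ
  have hsurj : Function.Surjective π := QuotientGroup.mk'_surjective C₁
  have hker : ∀ x, π x = 1 ↔ x ∈ C₁ := fun x => QuotientGroup.eq_one_iff x
  set M : Subgroup (G ⧸ C₁) := N.map π with hM
  have : M.Normal := h.Nn.map π hsurj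
  have hMc : ∀ x ∈ M, ∀ y ∈ M, x * y = y * x := by
    rintro _ ⟨x, hx, rfl⟩ _ ⟨y, hy, rfl⟩
    rw [← map_mul, ← map_mul, hNcomm x hx y hy]
  have hMk : M.index = k := by
    rw [hM, Subgroup.index_map, QuotientGroup.ker_mk', sup_of_le_left (hC₁C.trans h.CN),
      MonoidHom.range_eq_top.2 hsurj, Subgroup.index_top, mul_one, h.idx]
  have hMd : Nat.card M ∣ Nat.card N := Subgroup.card_map_dvd N π
  have hMcop : (Nat.card M).Coprime k := h.cop.coprime_dvd_left hMd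
  obtain ⟨K, hK⟩ := Subgroup.exists_right_complement'_of_coprime (N := M) (by rw [hMk]; exact hMcop)
  have hKk : Nat.card K = k := by rw [← hK.symm.index_eq_card, hMk]
  have hdec : ∀ x, ∃ n ∈ M, ∃ κ ∈ K, n * κ = x := fun x => by
    obtain ⟨⟨n, κ⟩, h⟩ := hK.2 x
    exact ⟨n, n.2, κ, κ.2, h⟩
  set D : Subgroup (G ⧸ C₁) := K ⊓ Subgroup.centralizer M with hD
  have hDk : Nat.card D ∣ k := hKk ▸ Subgroup.card_dvd_of_le inf_le_left
  have hDM : ∀ d ∈ D, ∀ n ∈ M, n * d = d * n := fun d hd n hn =>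
    Subgroup.mem_centralizer_iff.1 hd.2 n hn
  have hDn : D.Normal := by
    refine ⟨fun d hd g => ?_⟩
    obtain ⟨n, hn, κ, hκ, rfl⟩ := hdec g
    have h1 : κ * d * κ⁻¹ ∈ D := ⟨K.mul_mem (K.mul_mem hκ hd.1) (K.inv_mem hκ),
      (Subgroup.normal_centralizer (H := M)).conj_mem d hd.2 κ⟩
    have h2 := hDM _ h1 n hn
    have h3 : n * κ * d * (n * κ)⁻¹ = κ * d * κ⁻¹ := by
      have h4 : n * κ * d * (n * κ)⁻¹ = n * (κ * d * κ⁻¹) * n⁻¹ := by group
      rw [h4, h2, mul_inv_cancel_right]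
    rw [h3]
    exact h1
  have hAM : ∀ n ∈ M, n * π a = π a * n := by
    rintro _ ⟨n, hn, rfl⟩
    have h1 : a * n * a⁻¹ * n⁻¹ ∈ C₁ := by
      rw [hC₁]
      refine ⟨?_, Subgroup.subset_normalClosure ⟨n, rfl⟩⟩
      have h2 := C.inv_mem (h.cen n hn a)
      have h3 : (n * a * n⁻¹ * a⁻¹)⁻¹ = a * n * a⁻¹ * n⁻¹ := by group
      rwa [h3] at h2
    have h2 := (hker _).2 h1
    rw [map_mul, map_mul, map_mul, map_inv, map_inv] at h2
    exact (mul_inv_eq_iff_eq_mul.1 (mul_inv_eq_one.1 h2)).symm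
  obtain ⟨z, hz, δ, hδ, hzδ⟩ := hdec (π a)
  obtain ⟨u, hu, huz⟩ := hz
  have hz' : z ∈ M := ⟨u, hu, huz⟩
  have hδe : δ = z⁻¹ * π a := by rw [← hzδ, inv_mul_cancel_left]
  have hδD : δ ∈ D := by
    refine ⟨hδ, Subgroup.mem_centralizer_iff.2 fun n hn => ?_⟩
    rw [hδe]
    have h1 : n * z⁻¹ = z⁻¹ * n := hMc n hn _ (M.inv_mem hz')
    rw [← mul_assoc, h1, mul_assoc, hAM n hn, mul_assoc]
  -- the image of `Ecl a` meets the image of `C` trivially
  have hEC : ∀ x, x ∈ (Ecl a).map π → x ∈ C.map π → x = 1 := by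
    rintro _ ⟨x, hx, rfl⟩ ⟨y, hy, hxy⟩
    have h1 : y⁻¹ * x ∈ C₁ := by
      rw [← hker, map_mul, map_inv, hxy, inv_mul_cancel]
    have h2 : x ∈ C := by
      have := C.mul_mem hy (hC₁C h1)
      rwa [mul_inv_cancel_left] at this
    exact (hker x).2 (hC₁ ▸ ⟨h2, hx⟩)
  have hzc : ∀ x, z * x = x * z := by
    intro x
    obtain ⟨g, rfl⟩ := hsurj x
    set x := π g with hx
    -- the commutators
    have h1 : z * x * z⁻¹ * x⁻¹ ∈ C.map π := by
      refine ⟨u * g * u⁻¹ * g⁻¹, h.cen u hu g, ?_⟩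
      rw [map_mul, map_mul, map_mul, map_inv, map_inv, huz]
    have h2 : π a * x * (π a)⁻¹ * x⁻¹ ∈ (Ecl a).map π := by
      refine ⟨a * g * a⁻¹ * g⁻¹, Subgroup.subset_normalClosure ⟨g, rfl⟩, ?_⟩
      rw [map_mul, map_mul, map_mul, map_inv, map_inv]
    set d' := x⁻¹ * δ * x * δ⁻¹ with hd'
    have hd'D : d' ∈ D := by
      have := hDn.conj_mem δ hδD x⁻¹
      rw [inv_inv] at this
      exact D.mul_mem this (D.inv_mem hδD)
    set d'' := x * d' * x⁻¹ with hd''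
    have hd''D : d'' ∈ D := hDn.conj_mem d' hd'D x
    have hcM : z * x * z⁻¹ * x⁻¹ ∈ M := Subgroup.map_mono h.CN h1
    have h3 : z * x * z⁻¹ * x⁻¹ * d'' ∈ (Ecl a).map π := by
      have h4 : π a * x * (π a)⁻¹ * x⁻¹ = z * x * z⁻¹ * x⁻¹ * d'' := by
        have h5 : z * d' = d' * z := hDM d' hd'D z hz'
        have h6 : z⁻¹ * d' = d' * z⁻¹ := hDM d' hd'D _ (M.inv_mem hz')
        rw [← hzδ]
        have h7 : z * δ * x * (z * δ)⁻¹ * x⁻¹ = z * x * (d' * z⁻¹) * x⁻¹ := by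
          rw [hd']
          group
        rw [h7, ← h6, hd'']
        group
      rw [← h4]
      exact h2
    have h8 : d'' ^ k = 1 := by
      obtain ⟨t, ht⟩ := hDk
      have h9 : (⟨d'', hd''D⟩ : D) ^ Nat.card D = 1 := pow_card_eq_one'
      have h10 : d'' ^ Nat.card D = 1 := congrArg Subtype.val h9
      rw [ht, pow_mul, h10, one_pow]
    have h11 : (z * x * z⁻¹ * x⁻¹) ^ Nat.card M = 1 := by
      have h9 : (⟨_, hcM⟩ : M) ^ Nat.card M = 1 := pow_card_eq_one'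
      exact congrArg Subtype.val h9
    have h12 := mem_of_mul (hDM d'' hd''D _ hcM) h3 h8 h11 hMcop
    have h13 := hEC _ h12 h1
    exact mul_inv_eq_iff_eq_mul.1 (mul_inv_eq_one.1 h13)
  refine ⟨D, z, u, hDn, hDk, hzc, hδe ▸ hδD, hu, huz, ?_⟩
  -- the prime `P`
  have : Fact P.Prime := ⟨h.prime⟩
  obtain ⟨y, hy⟩ := exists_prime_orderOf_dvd_card' (G := N) P h.dvd
  have hyP : (y : G) ^ P = 1 := by
    rw [← Subgroup.orderOf_coe] at hy
    rw [← hy, pow_orderOf_eq_one]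
  have hCP : ∀ c ∈ C, c ^ P = 1 → c = 1 := by
    intro c hc hcP
    have h1 : orderOf c ∣ P := orderOf_dvd_of_pow_eq_one hcP
    rcases (Nat.dvd_prime h.prime).1 h1 with h2 | h2
    · exact orderOf_eq_one_iff.1 h2
    · refine absurd ?_ h.ndvd
      rw [← h2, ← Subgroup.orderOf_mk c hc]
      exact orderOf_dvd_natCard _
  have hyc : ∀ g, (y : G) * g = g * y := by
    intro g
    have h1 := h.cen y y.2 g
    have h2 : ((y : G) * g * (y : G)⁻¹ * g⁻¹) ^ P = 1 := by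
      have h3 : g * (y : G)⁻¹ * g⁻¹ ∈ N := h.Nn.conj_mem _ (N.inv_mem y.2) g
      have h4 : (y : G) * g * (y : G)⁻¹ * g⁻¹ = (y : G) * (g * (y : G)⁻¹ * g⁻¹) := by group
      rw [h4, (show Commute (y : G) (g * (y : G)⁻¹ * g⁻¹) from hNcomm _ y.2 _ h3).mul_pow, hyP,
        one_mul, conj_pow, inv_pow, hyP, inv_one, mul_one, mul_inv_cancel]
    have h5 := hCP _ h1 h2
    exact mul_inv_eq_iff_eq_mul.1 (mul_inv_eq_one.1 h5)
  have hyz : π (y : G) ∈ Subgroup.center (G ⧸ C₁) := by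
    rw [Subgroup.mem_center_iff]
    intro x
    obtain ⟨g, rfl⟩ := hsurj x
    rw [← map_mul, ← map_mul, hyc g]
  have hyo : orderOf (π (y : G)) = P := by
    refine orderOf_eq_prime (by rw [← map_pow, hyP, map_one]) fun h1 => ?_
    have h2 := hCP _ (hC₁C ((hker _).1 h1)) hyP
    have h3 : y = 1 := Subtype.ext h2
    rw [h3, orderOf_one] at hy
    exact h.prime.ne_one hy.symm
  rw [← hyo, ← Subgroup.orderOf_mk _ hyz]
  exact orderOf_dvd_natCard _

end Pool.Agent.Lib.MP_688fd0_co.SQ2.H9
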